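import Mathlib
import Pool.Agent.H15.BU3

set_option autoImplicit false

namespace Pool.Agent.Results.MP_e8ee11_co.BoundT

open Finset

/-- A set system of maximum degree at most `t` has discrepancy at most `t`. -/
theorem result (n m t : ℕ) (S : Fin m → Finset (Fin n))
    (ht : ∀ i : Fin n, (Finset.univ.filter (fun j : Fin m => i ∈ S j)).card ≤ t) :
    ∃ χ : Fin n → ℤ, (∀ i, χ i = 1 ∨ χ i = -1) ∧ ∀ j : Fin m, |∑ i ∈ S j, χ i| ≤ (t : ℤ) := by
  obtain ⟨T, hT⟩ := Pool.Agent.H15.BU.disc_le t n m (fun j U => ((S j ∩ U).card : ℝ))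
    (by
      intro j U g
      by_cases h : g ∈ S j
      · rw [inter_insert_of_mem h]
        by_cases h' : g ∈ S j ∩ U
        · rw [insert_eq_of_mem h']; simp
        · rw [card_insert_of_notMem h']; simp
      · rw [inter_insert_of_notMem h]; simp)
    (by
      intro g
      refine le_trans ?_ (ht g)
      rw [← Set.ncard_coe_finset]
      refine Set.ncard_le_ncard ?_
      rintro j ⟨U, hU⟩
      simp only [coe_filter, mem_univ, true_and, Set.mem_ofPred_eq]
      by_contra h
      exact hU (by rw [inter_insert_of_notMem h]))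
  refine ⟨fun i => if i ∈ T then 1 else -1, fun i => by by_cases h : i ∈ T <;> simp [h], fun j => ?_⟩
  have h := hT j
  rw [sum_ite, sum_const, sum_const, filter_mem_eq_inter]
  have h1 : filter (fun i => i ∉ T) (S j) = S j ∩ Tᶜ := by ext i; simp
  rw [h1]
  simp only [smul_neg, nsmul_eq_mul, mul_one, ← sub_eq_add_neg]
  exact_mod_cast h

end Pool.Agent.Results.MP_e8ee11_co.BoundT
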